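import Pool.Agent.Helper10.Qc.Stmts

set_option autoImplicit false

/-! UL: a leaf of the certificate for the upper bound. -/

namespace Pool.Agent.Helper10.Qc

open Pool.Agent.Helper19.Qh Pool.Agent.Helper19.Qc

theorem ul_force {α : Type} (n : ℕ) (f : ℕ → α) : force n f = f n := by
  cases n <;> rfl

theorem ul_df (p n : ℕ) : ((df p n : ℕ) : ℝ) = |(p : ℝ) - n| := by
  unfold df
  rcases le_total p n with h | h
  · have h1 : (p : ℝ) ≤ n := by exact_mod_cast h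
    rw [abs_of_nonpos (by linarith)]
    have : Nat.add (Nat.sub p n) (Nat.sub n p) = n - p := by
      show (p - n) + (n - p) = n - p
      omega
    rw [this, Nat.cast_sub h]; ring
  · have h1 : (n : ℝ) ≤ p := by exact_mod_cast h
    rw [abs_of_nonneg (by linarith)]
    have : Nat.add (Nat.sub p n) (Nat.sub n p) = p - n := by
      show (p - n) + (n - p) = p - n
      omega
    rw [this, Nat.cast_sub h]

theorem ul_nsq (a b c d o : ℕ) : ((nsq a b c d o : ℕ) : ℝ) =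
    ((a : ℝ) - o) ^ 2 + ((b : ℝ) - o) ^ 2 + ((c : ℝ) - o) ^ 2 + ((d : ℝ) - o) ^ 2 := by
  have h : nsq a b c d o = (df a o * df a o + df b o * df b o) + (df c o * df c o + df d o * df d o) :=
    rfl
  rw [h]
  push_cast
  rw [ul_df, ul_df, ul_df, ul_df, abs_mul_abs_self, abs_mul_abs_self, abs_mul_abs_self,
    abs_mul_abs_self]
  ring

/-- the box in real coordinates -/
structure ulB (b : Bx) (e : Fin 4 → ℝ) (Y x0 x1 x2 x3 t : ℝ) : Prop where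
  H : (b.H : ℝ) = 4096 * b.y - (((b.e0 : ℝ) - 128) ^ 2 + ((b.e1 : ℝ) - 128) ^ 2 +
    ((b.e2 : ℝ) - 128) ^ 2 + ((b.e3 : ℝ) - 128) ^ 2)
  e0 : 2 * e 0 = b.e0 + x0
  e1 : 2 * e 1 = b.e1 + x1
  e2 : 2 * e 2 = b.e2 + x2
  e3 : 2 * e 3 = b.e3 + x3
  Y : 2 * Y = b.y + t
  r0 : |x0| ≤ b.r0
  r1 : |x1| ≤ b.r1
  r2 : |x2| ≤ b.r2
  r3 : |x3| ≤ b.r3
  s : |t| ≤ b.s

/-- value of `T` -/
noncomputable def ulT (b : Bx) (n : En) : ℝ := 144 * b.y - 3 * (((b.e0 : ℝ) - 128) * ((n.d0 : ℝ) - 128) +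
    ((b.e1 : ℝ) - 128) * ((n.d1 : ℝ) - 128) + ((b.e2 : ℝ) - 128) * ((n.d2 : ℝ) - 128) +
    ((b.e3 : ℝ) - 128) * ((n.d3 : ℝ) - 128)) +
  64 * (((n.d0 : ℝ) - 128) ^ 2 + ((n.d1 : ℝ) - 128) ^ 2 + ((n.d2 : ℝ) - 128) ^ 2 +
    ((n.d3 : ℝ) - 128) ^ 2)

theorem ul_T {b : Bx} {n : En} (hg : GoodE n) (hH : (b.H : ℝ) = 4096 * b.y -
    (((b.e0 : ℝ) - 128) ^ 2 + ((b.e1 : ℝ) - 128) ^ 2 +
    ((b.e2 : ℝ) - 128) ^ 2 + ((b.e3 : ℝ) - 128) ^ 2)) : ((eT b n : ℕ) : ℝ) = ulT b n := by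
  have h0 : 0 ≤ ulT b n := by
    have hH0 : (0 : ℝ) ≤ b.H := Nat.cast_nonneg _
    have : ulT b n = 9 / 256 * b.H + ((3 / 16 * ((b.e0 : ℝ) - 128) - 8 * ((n.d0 : ℝ) - 128)) ^ 2 +
        (3 / 16 * ((b.e1 : ℝ) - 128) - 8 * ((n.d1 : ℝ) - 128)) ^ 2 +
        (3 / 16 * ((b.e2 : ℝ) - 128) - 8 * ((n.d2 : ℝ) - 128)) ^ 2 +
        (3 / 16 * ((b.e3 : ℝ) - 128) - 8 * ((n.d3 : ℝ) - 128)) ^ 2) := by
      rw [hH]; unfold ulT; ring
    rw [this]
    positivity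
  have hc : (n.c : ℝ) = 64 * (((n.d0 : ℝ) - 128) ^ 2 + ((n.d1 : ℝ) - 128) ^ 2 +
      ((n.d2 : ℝ) - 128) ^ 2 + ((n.d3 : ℝ) - 128) ^ 2) + 384 * (n.d0 + n.d1 + n.d2 + n.d3) := by
    have := congrArg (Nat.cast : ℕ → ℝ) hg
    push_cast at this
    rw [ul_nsq] at this
    push_cast at this
    exact this
  have he : eT b n = (144 * b.y + n.c + 384 * ((b.e0 + b.e1) + (b.e2 + b.e3))) -
      (3 * ((b.e0 * n.d0 + b.e1 * n.d1) + (b.e2 * n.d2 + b.e3 * n.d3)) + 196608) := rfl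
  have hv : ((144 * b.y + n.c + 384 * ((b.e0 + b.e1) + (b.e2 + b.e3)) : ℕ) : ℝ) =
      ((3 * ((b.e0 * n.d0 + b.e1 * n.d1) + (b.e2 * n.d2 + b.e3 * n.d3)) + 196608 : ℕ) : ℝ) +
        ulT b n := by
    push_cast
    rw [hc]
    unfold ulT
    ring
  have hle : 3 * ((b.e0 * n.d0 + b.e1 * n.d1) + (b.e2 * n.d2 + b.e3 * n.d3)) + 196608 ≤
      144 * b.y + n.c + 384 * ((b.e0 + b.e1) + (b.e2 + b.e3)) := by
    have : ((3 * ((b.e0 * n.d0 + b.e1 * n.d1) + (b.e2 * n.d2 + b.e3 * n.d3)) + 196608 : ℕ) : ℝ) ≤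
      ((144 * b.y + n.c + 384 * ((b.e0 + b.e1) + (b.e2 + b.e3)) : ℕ) : ℝ) := by
      rw [hv]; linarith
    exact_mod_cast this
  rw [he, Nat.cast_sub hle, hv]
  ring

/-- the linear part -/
noncomputable def ulg (b : Bx) (M d0 d1 d2 d3 x0 x1 x2 x3 t : ℝ) : ℝ :=
  (106168320 - 288 * M) * t + (6635520 + 6 * M * d0 - 51840 * b.e0 - 768 * M) * x0 +
    (6635520 + 6 * M * d1 - 51840 * b.e1 - 768 * M) * x1 +
    (6635520 + 6 * M * d2 - 51840 * b.e2 - 768 * M) * x2 +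
    (6635520 + 6 * M * d3 - 51840 * b.e3 - 768 * M) * x3

theorem ul_mul {g x r G : ℝ} (hx : |x| ≤ r) (hG : G = |g|) : |g * x| ≤ G * r := by
  rw [abs_mul, hG]
  exact mul_le_mul_of_nonneg_left hx (abs_nonneg _)

theorem ul_g {b : Bx} {e : Fin 4 → ℝ} {Y x0 x1 x2 x3 t : ℝ} (hB : ulB b e Y x0 x1 x2 x3 t) (M : ℕ)
    (n : En) : |ulg b M n.d0 n.d1 n.d2 n.d3 x0 x1 x2 x3 t| ≤ ((eL b M n : ℕ) : ℝ) := by
  have he : eL b M n = df 106168320 (288 * M) * b.s + ((eG M b.e0 n.d0 * b.r0 +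
    eG M b.e1 n.d1 * b.r1) + (eG M b.e2 n.d2 * b.r2 + eG M b.e3 n.d3 * b.r3)) := rfl
  have hG : ∀ ei di : ℕ, ((eG M ei di : ℕ) : ℝ) =
      |6635520 + 6 * (M : ℝ) * di - 51840 * ei - 768 * M| := by
    intro ei di
    have : eG M ei di = df (6635520 + 6 * M * di) (51840 * ei + 768 * M) := rfl
    rw [this, ul_df]
    push_cast
    congr 1
    ring
  have hs : ((df 106168320 (288 * M) : ℕ) : ℝ) = |106168320 - 288 * (M : ℝ)| := by
    rw [ul_df]; push_cast; rfl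
  rw [he]
  push_cast
  have a0 := ul_mul hB.r0 (hG b.e0 n.d0)
  have a1 := ul_mul hB.r1 (hG b.e1 n.d1)
  have a2 := ul_mul hB.r2 (hG b.e2 n.d2)
  have a3 := ul_mul hB.r3 (hG b.e3 n.d3)
  have a4 := ul_mul hB.s hs
  unfold ulg
  rw [abs_le] at *
  constructor <;> linarith [a0.1, a0.2, a1.1, a1.2, a2.1, a2.2, a3.1, a3.2, a4.1, a4.2]

/-- the chord -/
theorem ul_chord {P : ℝ → ℝ} (hm : Monotone P) (hc : ConvexOn ℝ Set.univ P)
    {S : ℝ} (hS : 0 < S) {xc xl : ℝ} {L xp xm Fp Fm : ℕ} (hxp : (xc + L) ≤ xp)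
    (hxm : xc - L ≤ xm) (hl : |xl - xc| ≤ L) (hFp : S * P (xp / S) ≤ Fp)
    (hFm : S * P (xm / S) ≤ Fm) :
    1048576 * (S * P (xl / S)) ≤ 1048576 * Fm + (slope Fp Fm L : ℕ) * (xl - (xc - L)) := by
  rcases Nat.eq_zero_or_pos L with hL | hL
  · subst hL
    simp only [Nat.cast_zero] at *
    have h1 : xl = xc := by
      have := abs_nonpos_iff.1 hl
      linarith
    rw [h1]
    have h2 : P (xc / S) ≤ P (xm / S) := by
      apply hm
      exact div_le_div_of_nonneg_right (by linarith) hS.le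
    have h3 := mul_le_mul_of_nonneg_left h2 hS.le
    simp only [sub_zero, sub_self, mul_zero, add_zero]
    linarith
  · have hLr : (0 : ℝ) < L := by exact_mod_cast hL
    have hl' := abs_le.1 hl
    set lam : ℝ := (xl - (xc - L)) / (2 * L) with hlam
    have h0 : 0 ≤ lam := div_nonneg (by linarith) (by linarith)
    have h1 : lam ≤ 1 := by rw [hlam, div_le_one (by linarith)]; linarith
    have h2 : lam * (2 * L) = xl - (xc - L) := by rw [hlam]; field_simp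
    have hconv := hc.2 (Set.mem_univ ((xc - L) / S)) (Set.mem_univ ((xc + L) / S))
      (by linarith : 0 ≤ 1 - lam) h0 (by ring)
    have h3 : (1 - lam) • ((xc - L) / S) + lam • ((xc + L) / S) = xl / S := by
      rw [smul_eq_mul, smul_eq_mul]
      have : (1 - lam) * ((xc - L) / S) + lam * ((xc + L) / S) =
        ((xc - L) + lam * (2 * L)) / S := by ring
      rw [this, h2]
      congr 1
      ring
    rw [h3, smul_eq_mul, smul_eq_mul] at hconv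
    have h4 : P ((xc - L) / S) ≤ P (xm / S) := hm (div_le_div_of_nonneg_right hxm hS.le)
    have h5 : P ((xc + L) / S) ≤ P (xp / S) := hm (div_le_div_of_nonneg_right hxp hS.le)
    have h6 : S * P (xl / S) ≤ (1 - lam) * Fm + lam * Fp := by
      have e1 := mul_le_mul_of_nonneg_left h4 hS.le
      have e2 := mul_le_mul_of_nonneg_left h5 hS.le
      have e3 := mul_le_mul_of_nonneg_left (e1.trans hFm) (by linarith : 0 ≤ 1 - lam)
      have e4 := mul_le_mul_of_nonneg_left (e2.trans hFp) h0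
      have e5 := mul_le_mul_of_nonneg_left hconv hS.le
      have e6 : S * ((1 - lam) * P ((xc - L) / S) + lam * P ((xc + L) / S)) =
        (1 - lam) * (S * P ((xc - L) / S)) + lam * (S * P ((xc + L) / S)) := by ring
      linarith
    have h7 : (Fp : ℝ) - Fm ≤ ((Fp - Fm : ℕ) : ℝ) := by
      rcases le_total Fm Fp with h | h
      · rw [Nat.cast_sub h]
      · rw [Nat.sub_eq_zero_of_le h, Nat.cast_zero]
        have : (Fp : ℝ) ≤ Fm := by exact_mod_cast h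
        linarith
    have h8 : (1048576 : ℝ) * ((Fp - Fm : ℕ) : ℝ) ≤ (slope Fp Fm L : ℕ) * (2 * L) := by
      have : slope Fp Fm L = 1048576 * (Fp - Fm) / (2 * L) + 1 := rfl
      have h9 : 1048576 * (Fp - Fm) < (1048576 * (Fp - Fm) / (2 * L) + 1) * (2 * L) := by
        have := Nat.lt_div_mul_add (a := 1048576 * (Fp - Fm)) (b := 2 * L) (by omega)
        rw [add_mul, one_mul]
        exact this
      rw [this]
      exact_mod_cast h9.le
    have h9 := mul_le_mul_of_nonneg_left h7 h0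
    have h10 := mul_le_mul_of_nonneg_left h8 h0
    have h11 : lam * ((slope Fp Fm L : ℕ) * (2 * L)) = (slope Fp Fm L : ℕ) * (xl - (xc - L)) := by
      rw [← h2]; ring
    rw [h11] at h10
    nlinarith

/-- properties of `Psi` -/
theorem ul_psi (h1 : ST_PS1) (h2 : ST_PS2) (h3 : ST_PS3) (n : ℕ) : Monotone (Psi n) ∧
    ConvexOn ℝ Set.univ (Psi n) ∧ Psi n 0 = 0 ∧
    ∀ x : ℕ, x ≤ 1099511627776 → (sS : ℝ) * Psi n ((x : ℝ) / sS) ≤ (FF n x : ℝ) := by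
  rcases eq_or_ne n 1 with rfl | hn1
  · exact ⟨h1.1, h1.2.1, h1.2.2.1, fun x hx => h1.2.2.2 x hx⟩
  · rcases eq_or_ne n 2 with rfl | hn2
    · exact ⟨h2.1, h2.2.1, h2.2.2.1, fun x _ => h2.2.2.2 x⟩
    · obtain ⟨-, a, b, c, d⟩ := h3 n hn1 hn2
      exact ⟨a, b, c, fun x _ => d x⟩

/-- `hU` in the coordinates of the box -/
theorem ul_hU {b : Bx} {e : Fin 4 → ℝ} {Y x0 x1 x2 x3 t : ℝ} (hB : ulB b e Y x0 x1 x2 x3 t) :
    hU e Y = b.H + (4096 * t - 2 * (((b.e0 : ℝ) - 128) * x0 + ((b.e1 : ℝ) - 128) * x1 +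
      ((b.e2 : ℝ) - 128) * x2 + ((b.e3 : ℝ) - 128) * x3)) -
      (x0 ^ 2 + x1 ^ 2 + x2 ^ 2 + x3 ^ 2) := by
  unfold hU
  rw [hB.e0, hB.e1, hB.e2, hB.e3, hB.H]
  have : 8192 * Y = 4096 * (2 * Y) := by ring
  rw [this, hB.Y]
  ring

theorem ul_tU {b : Bx} {e : Fin 4 → ℝ} {Y x0 x1 x2 x3 t : ℝ} (hB : ulB b e Y x0 x1 x2 x3 t)
    (n : En) : tU n e Y = ulT b n + (144 * t - 3 * (x0 * ((n.d0 : ℝ) - 128) +
      x1 * ((n.d1 : ℝ) - 128) + x2 * ((n.d2 : ℝ) - 128) + x3 * ((n.d3 : ℝ) - 128))) := by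
  unfold tU
  rw [hB.e0, hB.e1, hB.e2, hB.e3]
  have : 288 * Y = 144 * (2 * Y) := by ring
  rw [this, hB.Y]
  unfold ulT
  ring

/-- linear upper bound of `xU` -/
theorem ul_xU {b : Bx} {e : Fin 4 → ℝ} {Y x0 x1 x2 x3 t : ℝ} (hB : ulB b e Y x0 x1 x2 x3 t)
    (n : En) (M : ℝ) (hM : M = n.n * ulT b n) : xU n e Y ≤ 25920 * b.H - M * ulT b n +
      ulg b M n.d0 n.d1 n.d2 n.d3 x0 x1 x2 x3 t := by
  unfold xU
  rw [ul_hU hB, ul_tU hB n]
  set τ := 144 * t - 3 * (x0 * ((n.d0 : ℝ) - 128) +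
      x1 * ((n.d1 : ℝ) - 128) + x2 * ((n.d2 : ℝ) - 128) + x3 * ((n.d3 : ℝ) - 128)) with hτ
  have h1 : 0 ≤ (n.n : ℝ) * τ ^ 2 := by positivity
  have h2 : 0 ≤ x0 ^ 2 + x1 ^ 2 + x2 ^ 2 + x3 ^ 2 := by positivity
  have h3 : 25920 * (b.H + (4096 * t - 2 * (((b.e0 : ℝ) - 128) * x0 + ((b.e1 : ℝ) - 128) * x1 +
      ((b.e2 : ℝ) - 128) * x2 + ((b.e3 : ℝ) - 128) * x3)) -
      (x0 ^ 2 + x1 ^ 2 + x2 ^ 2 + x3 ^ 2)) - n.n * (ulT b n + τ) ^ 2 =
      25920 * b.H - M * ulT b n + ulg b M n.d0 n.d1 n.d2 n.d3 x0 x1 x2 x3 t -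
      25920 * (x0 ^ 2 + x1 ^ 2 + x2 ^ 2 + x3 ^ 2) - n.n * τ ^ 2 := by
    unfold ulg
    rw [hM, hτ]
    ring
  rw [h3]
  linarith

/-- one term -/
theorem ul_term (h1 : ST_PS1) (h2 : ST_PS2) (h3 : ST_PS3) {b : Bx} {e : Fin 4 → ℝ}
    {Y x0 x1 x2 x3 t : ℝ} (hB : ulB b e Y x0 x1 x2 x3 t) {n : En} (hg : GoodE n) (T M L xp : ℕ)
    (hT : T = eT b n) (hM : M = n.n * T) (hL : L = eL b M n)
    (hxp : xp = 25920 * b.H + L - M * T) :
    (xp = 0 → (sS : ℝ) * Psi n.n (xU n e Y / sS) ≤ 0) ∧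
    (xp ≠ 0 → xp ≤ 1099511627776 → 1048576 * ((sS : ℝ) * Psi n.n (xU n e Y / sS)) ≤
      1048576 * (FF n.n (25920 * b.H - (M * T + L)) : ℕ) +
        (slope (FF n.n xp) (FF n.n (25920 * b.H - (M * T + L))) L : ℕ) *
          (L + ulg b M n.d0 n.d1 n.d2 n.d3 x0 x1 x2 x3 t)) := by
  obtain ⟨pm, pc, p0, pf⟩ := ul_psi h1 h2 h3 n.n
  have hS : (0 : ℝ) < (sS : ℕ) := by
    have : 0 < sS := by unfold sS; norm_num
    exact_mod_cast this
  have hTr : (T : ℝ) = ulT b n := by rw [hT]; exact ul_T hg hB.H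
  have hMr : (M : ℝ) = n.n * ulT b n := by rw [hM]; push_cast; rw [hTr]
  have hx := ul_xU hB n M hMr
  have hgl := ul_g hB M n
  rw [← hL] at hgl
  set G := ulg b M n.d0 n.d1 n.d2 n.d3 x0 x1 x2 x3 t with hG
  have hgl' := abs_le.1 hgl
  rw [← hTr] at hx
  constructor
  · intro h0
    have hle : 25920 * b.H + L ≤ M * T := by omega
    have hler : (25920 : ℝ) * b.H + L ≤ M * T := by exact_mod_cast hle
    have hx0 : xU n e Y ≤ 0 := by linarith
    have : Psi n.n (xU n e Y / sS) ≤ Psi n.n 0 := by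
      apply pm
      exact div_nonpos_of_nonpos_of_nonneg hx0 hS.le
    rw [p0] at this
    exact mul_nonpos_of_nonneg_of_nonpos hS.le this
  · intro h0 hb
    have hlt : M * T ≤ 25920 * b.H + L := by omega
    have hxpr : (xp : ℝ) = 25920 * b.H + L - M * T := by
      rw [hxp, Nat.cast_sub hlt]; push_cast; ring
    set xm := 25920 * b.H - (M * T + L) with hxm
    have hxmp : xm ≤ xp := by omega
    have hxmr : (25920 * b.H - M * T : ℝ) - L ≤ (xm : ℝ) := by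
      rcases le_total (M * T + L) (25920 * b.H) with h | h
      · rw [hxm, Nat.cast_sub h]; push_cast; linarith
      · have h' : (25920 : ℝ) * b.H ≤ M * T + L := by exact_mod_cast h
        have : (0 : ℝ) ≤ (xm : ℝ) := Nat.cast_nonneg _
        linarith
    have hch := ul_chord pm pc hS (xc := 25920 * b.H - M * T)
      (xl := 25920 * b.H - M * T + G) (L := L) (xp := xp) (xm := xm) (Fp := FF n.n xp)
      (Fm := FF n.n xm) (by rw [hxpr]; linarith) hxmr (by rw [add_sub_cancel_left]; exact hgl)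
      (pf xp hb) (pf xm (hxmp.trans hb))
    have hmono : Psi n.n (xU n e Y / sS) ≤ Psi n.n ((25920 * b.H - M * T + G) / sS) := by
      apply pm
      exact div_le_div_of_nonneg_right (by linarith) hS.le
    have e1 := mul_le_mul_of_nonneg_left hmono hS.le
    have e2 : (25920 * b.H - M * T + G : ℝ) - (25920 * b.H - M * T - L) = L + G := by ring
    rw [e2] at hch
    linarith

/-- the accumulated bound -/
noncomputable def ulC (b : Bx) (C Q R R0 R1 R2 R3 : ℕ) (x0 x1 x2 x3 t : ℝ) : ℝ :=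
  C + (106168320 * Q - 288 * R) * t +
    (6635520 * Q + 6 * R0 - 51840 * b.e0 * Q - 768 * R) * x0 +
    (6635520 * Q + 6 * R1 - 51840 * b.e1 * Q - 768 * R) * x1 +
    (6635520 * Q + 6 * R2 - 51840 * b.e2 * Q - 768 * R) * x2 +
    (6635520 * Q + 6 * R3 - 51840 * b.e3 * Q - 768 * R) * x3

theorem ul_ar {C H w X gt g0 g1 g2 g3 t x0 x1 x2 x3 s r0 r1 r2 r3 : ℝ} (hH : 0 ≤ H)
    (a4 : gt * t ≤ |gt| * s) (a0 : g0 * x0 ≤ |g0| * r0) (a1 : g1 * x1 ≤ |g1| * r1)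
    (a2 : g2 * x2 ≤ |g2| * r2) (a3 : g3 * x3 ≤ |g3| * r3)
    (hX : X ≤ (r0 * r0 + r1 * r1) + (r2 * r2 + r3 * r3))
    (h : 5 * C + ((s * |gt| + ((r0 * |g0| + r1 * |g1|) + (r2 * |g2| + r3 * |g3|))) +
      261792 * H * ((r0 * r0 + r1 * r1) + (r2 * r2 + r3 * r3))) ≤ 130896 * (H * H)) :
    5 * C + gt * t + g0 * x0 + g1 * x1 + g2 * x2 + g3 * x3 + 261792 * (H * w) ≤
      130896 * (H + w - X) ^ 2 := by
  have hq := mul_le_mul_of_nonneg_left hX hH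
  have hsq : H ^ 2 + 2 * (H * w) - 2 * (H * X) ≤ (H + w - X) ^ 2 := by
    nlinarith only [sq_nonneg (w - X)]
  have c0 : |g0| * r0 = r0 * |g0| := mul_comm _ _
  have c1 : |g1| * r1 = r1 * |g1| := mul_comm _ _
  have c2 : |g2| * r2 = r2 * |g2| := mul_comm _ _
  have c3 : |g3| * r3 = r3 * |g3| := mul_comm _ _
  have c4 : |gt| * s = s * |gt| := mul_comm _ _
  rw [c0] at a0
  rw [c1] at a1
  rw [c2] at a2
  rw [c3] at a3
  rw [c4] at a4
  have e1 : 261792 * H * ((r0 * r0 + r1 * r1) + (r2 * r2 + r3 * r3)) =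
    261792 * (H * ((r0 * r0 + r1 * r1) + (r2 * r2 + r3 * r3))) := by ring
  rw [e1] at h
  have e2 : H * H = H ^ 2 := by ring
  rw [e2] at h
  linarith only [h, hq, hsq, a0, a1, a2, a3, a4]

theorem ul_fin {b : Bx} {e : Fin 4 → ℝ} {Y x0 x1 x2 x3 t : ℝ} (hB : ulB b e Y x0 x1 x2 x3 t)
    (C Q R R0 R1 R2 R3 : ℕ) (h : finU b C Q R R0 R1 R2 R3 = true) :
    5 * ulC b C Q R R0 R1 R2 R3 x0 x1 x2 x3 t ≤ 130896 * hU e Y ^ 2 := by
  unfold finU at h
  rw [ul_force] at h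
  have h' : 5 * C + ((b.s * df (530841600 * Q) (1440 * R + 4096 * (261792 * b.H)) +
      ((b.r0 * df (2 * (261792 * b.H) * b.e0 + (33177600 * Q + 30 * R0))
          (259200 * Q * b.e0 + (256 * (261792 * b.H) + 3840 * R)) +
        b.r1 * df (2 * (261792 * b.H) * b.e1 + (33177600 * Q + 30 * R1))
          (259200 * Q * b.e1 + (256 * (261792 * b.H) + 3840 * R))) +
       (b.r2 * df (2 * (261792 * b.H) * b.e2 + (33177600 * Q + 30 * R2))
          (259200 * Q * b.e2 + (256 * (261792 * b.H) + 3840 * R)) +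
        b.r3 * df (2 * (261792 * b.H) * b.e3 + (33177600 * Q + 30 * R3))
          (259200 * Q * b.e3 + (256 * (261792 * b.H) + 3840 * R))))) +
      261792 * b.H * ((b.r0 * b.r0 + b.r1 * b.r1) + (b.r2 * b.r2 + b.r3 * b.r3))) ≤
      130896 * (b.H * b.H) := Nat.le_of_ble_eq_true h
  obtain ⟨gt, hgt⟩ : ∃ g : ℝ, g = 530841600 * (Q : ℝ) - (1440 * R + 4096 * (261792 * b.H)) :=
    ⟨_, rfl⟩
  obtain ⟨g0, hg0⟩ : ∃ g : ℝ, g = 2 * (261792 * (b.H : ℝ)) * b.e0 + (33177600 * Q + 30 * R0) -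
    (259200 * Q * b.e0 + (256 * (261792 * b.H) + 3840 * R)) := ⟨_, rfl⟩
  obtain ⟨g1, hg1⟩ : ∃ g : ℝ, g = 2 * (261792 * (b.H : ℝ)) * b.e1 + (33177600 * Q + 30 * R1) -
    (259200 * Q * b.e1 + (256 * (261792 * b.H) + 3840 * R)) := ⟨_, rfl⟩
  obtain ⟨g2, hg2⟩ : ∃ g : ℝ, g = 2 * (261792 * (b.H : ℝ)) * b.e2 + (33177600 * Q + 30 * R2) -
    (259200 * Q * b.e2 + (256 * (261792 * b.H) + 3840 * R)) := ⟨_, rfl⟩
  obtain ⟨g3, hg3⟩ : ∃ g : ℝ, g = 2 * (261792 * (b.H : ℝ)) * b.e3 + (33177600 * Q + 30 * R3) -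
    (259200 * Q * b.e3 + (256 * (261792 * b.H) + 3840 * R)) := ⟨_, rfl⟩
  have dt : ((df (530841600 * Q) (1440 * R + 4096 * (261792 * b.H)) : ℕ) : ℝ) = |gt| := by
    rw [ul_df, hgt]; push_cast; rfl
  have d0 : ((df (2 * (261792 * b.H) * b.e0 + (33177600 * Q + 30 * R0))
      (259200 * Q * b.e0 + (256 * (261792 * b.H) + 3840 * R)) : ℕ) : ℝ) = |g0| := by
    rw [ul_df, hg0]; push_cast; rfl
  have d1 : ((df (2 * (261792 * b.H) * b.e1 + (33177600 * Q + 30 * R1))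
      (259200 * Q * b.e1 + (256 * (261792 * b.H) + 3840 * R)) : ℕ) : ℝ) = |g1| := by
    rw [ul_df, hg1]; push_cast; rfl
  have d2 : ((df (2 * (261792 * b.H) * b.e2 + (33177600 * Q + 30 * R2))
      (259200 * Q * b.e2 + (256 * (261792 * b.H) + 3840 * R)) : ℕ) : ℝ) = |g2| := by
    rw [ul_df, hg2]; push_cast; rfl
  have d3 : ((df (2 * (261792 * b.H) * b.e3 + (33177600 * Q + 30 * R3))
      (259200 * Q * b.e3 + (256 * (261792 * b.H) + 3840 * R)) : ℕ) : ℝ) = |g3| := by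
    rw [ul_df, hg3]; push_cast; rfl
  generalize df (530841600 * Q) (1440 * R + 4096 * (261792 * b.H)) = Dt at h' dt
  generalize df (2 * (261792 * b.H) * b.e0 + (33177600 * Q + 30 * R0))
      (259200 * Q * b.e0 + (256 * (261792 * b.H) + 3840 * R)) = D0 at h' d0
  generalize df (2 * (261792 * b.H) * b.e1 + (33177600 * Q + 30 * R1))
      (259200 * Q * b.e1 + (256 * (261792 * b.H) + 3840 * R)) = D1 at h' d1
  generalize df (2 * (261792 * b.H) * b.e2 + (33177600 * Q + 30 * R2))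
      (259200 * Q * b.e2 + (256 * (261792 * b.H) + 3840 * R)) = D2 at h' d2
  generalize df (2 * (261792 * b.H) * b.e3 + (33177600 * Q + 30 * R3))
      (259200 * Q * b.e3 + (256 * (261792 * b.H) + 3840 * R)) = D3 at h' d3
  have h2 : (5 : ℝ) * C + (((b.s : ℝ) * Dt + (((b.r0 : ℝ) * D0 + b.r1 * D1) +
      ((b.r2 : ℝ) * D2 + b.r3 * D3))) + 261792 * (b.H : ℝ) *
      (((b.r0 : ℝ) * b.r0 + b.r1 * b.r1) + ((b.r2 : ℝ) * b.r2 + b.r3 * b.r3))) ≤
      130896 * ((b.H : ℝ) * b.H) := by exact_mod_cast h'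
  rw [dt, d0, d1, d2, d3] at h2
  have a0 := (abs_le.1 (ul_mul (g := g0) hB.r0 rfl)).2
  have a1 := (abs_le.1 (ul_mul (g := g1) hB.r1 rfl)).2
  have a2 := (abs_le.1 (ul_mul (g := g2) hB.r2 rfl)).2
  have a3 := (abs_le.1 (ul_mul (g := g3) hB.r3 rfl)).2
  have a4 := (abs_le.1 (ul_mul (g := gt) hB.s rfl)).2
  have q0 : x0 ^ 2 ≤ b.r0 * b.r0 := by
    rw [← sq_abs, pow_two]; exact mul_self_le_mul_self (abs_nonneg _) hB.r0
  have q1 : x1 ^ 2 ≤ b.r1 * b.r1 := by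
    rw [← sq_abs, pow_two]; exact mul_self_le_mul_self (abs_nonneg _) hB.r1
  have q2 : x2 ^ 2 ≤ b.r2 * b.r2 := by
    rw [← sq_abs, pow_two]; exact mul_self_le_mul_self (abs_nonneg _) hB.r2
  have q3 : x3 ^ 2 ≤ b.r3 * b.r3 := by
    rw [← sq_abs, pow_two]; exact mul_self_le_mul_self (abs_nonneg _) hB.r3
  have hX : x0 ^ 2 + x1 ^ 2 + x2 ^ 2 + x3 ^ 2 ≤
      ((b.r0 : ℝ) * b.r0 + b.r1 * b.r1) + ((b.r2 : ℝ) * b.r2 + b.r3 * b.r3) := by
    linarith only [q0, q1, q2, q3]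
  have key := ul_ar (w := 4096 * t - 2 * (((b.e0 : ℝ) - 128) * x0 + ((b.e1 : ℝ) - 128) * x1 +
      ((b.e2 : ℝ) - 128) * x2 + ((b.e3 : ℝ) - 128) * x3)) (Nat.cast_nonneg b.H) a4 a0 a1 a2 a3
      hX h2
  rw [ul_hU hB]
  refine le_trans (le_of_eq ?_) key
  unfold ulC
  rw [hgt, hg0, hg1, hg2, hg3]
  ring

theorem ul_acc (h1 : ST_PS1) (h2 : ST_PS2) (h3 : ST_PS3) {b : Bx} {e : Fin 4 → ℝ}
    {Y x0 x1 x2 x3 t : ℝ} (hB : ulB b e Y x0 x1 x2 x3 t) (l : List En) :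
    (∀ n ∈ l, GoodE n) → ∀ C Q R R0 R1 R2 R3 : ℕ, accU b l C Q R R0 R1 R2 R3 = true →
    5 * ulC b C Q R R0 R1 R2 R3 x0 x1 x2 x3 t +
      5 * (1048576 * ((sS : ℝ) * (l.map fun n => Psi n.n (xU n e Y / sS)).sum)) ≤
      130896 * hU e Y ^ 2 := by
  induction l with
  | nil =>
    intro _ C Q R R0 R1 R2 R3 h
    have := ul_fin hB C Q R R0 R1 R2 R3 h
    simp only [List.map_nil, List.sum_nil, mul_zero, add_zero]
    exact this
  | cons n l ih =>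
    intro hg C Q R R0 R1 R2 R3 h
    have hgn := hg n List.mem_cons_self
    have hgl : ∀ n ∈ l, GoodE n := fun m hm => hg m (List.mem_cons_of_mem _ hm)
    unfold accU at h
    simp only [ul_force] at h
    obtain ⟨T, hT⟩ : ∃ T, T = eT b n := ⟨_, rfl⟩
    rw [← hT] at h
    obtain ⟨M, hM⟩ : ∃ M, M = n.n * T := ⟨_, rfl⟩
    have hM' : Nat.mul n.n T = M := hM.symm
    rw [hM'] at h
    obtain ⟨L, hL⟩ : ∃ L, L = eL b M n := ⟨_, rfl⟩
    rw [← hL] at h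
    obtain ⟨xp, hxp⟩ : ∃ xp, xp = 25920 * b.H + L - M * T := ⟨_, rfl⟩
    have hxp' : Nat.sub (Nat.add (Nat.mul 25920 b.H) L) (Nat.mul M T) = xp := hxp.symm
    rw [hxp'] at h
    obtain ⟨t0, t1⟩ := ul_term h1 h2 h3 hB hgn T M L xp hT hM hL hxp
    rw [List.map_cons, List.sum_cons, mul_add, mul_add, mul_add]
    by_cases hx0 : xp = 0
    · rw [hx0] at h
      have h' : accU b l C Q R R0 R1 R2 R3 = true := h
      have := ih hgl C Q R R0 R1 R2 R3 h'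
      have := t0 hx0
      linarith
    · have hbeq : Nat.beq xp 0 = false := by
        cases xp with
        | zero => exact absurd rfl hx0
        | succ k => rfl
      rw [hbeq, cond_false] at h
      by_cases hle : xp ≤ 1099511627776
      · have hble : Nat.ble xp 1099511627776 = true := Nat.ble_eq_true_of_le hle
        rw [hble, cond_true] at h
        have ht := t1 hx0 hle
        obtain ⟨Fm, hFm⟩ : ∃ Fm, Fm = FF n.n (25920 * b.H - (M * T + L)) := ⟨_, rfl⟩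
        have hFm' : FF n.n (Nat.sub (Nat.mul 25920 b.H) (Nat.add (Nat.mul M T) L)) = Fm := hFm.symm
        rw [hFm'] at h
        rw [← hFm] at ht
        obtain ⟨σ, hσ⟩ : ∃ σ, σ = slope (FF n.n xp) Fm L := ⟨_, rfl⟩
        rw [← hσ] at h ht
        have hih := ih hgl _ _ _ _ _ _ _ h
        have hC : ulC b (Nat.add C (Nat.add (Nat.mul 1048576 Fm) (Nat.mul σ L))) (Nat.add Q σ)
            (Nat.add R (Nat.mul σ M)) (Nat.add R0 (Nat.mul (Nat.mul σ M) n.d0))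
            (Nat.add R1 (Nat.mul (Nat.mul σ M) n.d1)) (Nat.add R2 (Nat.mul (Nat.mul σ M) n.d2))
            (Nat.add R3 (Nat.mul (Nat.mul σ M) n.d3)) x0 x1 x2 x3 t =
            ulC b C Q R R0 R1 R2 R3 x0 x1 x2 x3 t + (1048576 * Fm +
              σ * (L + ulg b M n.d0 n.d1 n.d2 n.d3 x0 x1 x2 x3 t)) := by
          unfold ulC ulg
          simp only [Nat.add_eq, Nat.mul_eq]
          push_cast
          ring
        rw [hC] at hih
        linarith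
      · exfalso
        have hble : Nat.ble xp 1099511627776 = false := by
          rcases hb : Nat.ble xp 1099511627776 with _ | _
          · rfl
          · exact absurd (Nat.le_of_ble_eq_true hb) hle
        rw [hble, cond_false] at h
        exact Bool.noConfusion h

/-- the cusp at infinity -/
theorem ul_inf (h3 : ST_PS3) {b : Bx} {e : Fin 4 → ℝ}
    {Y x0 x1 x2 x3 t : ℝ} (hB : ulB b e Y x0 x1 x2 x3 t) (L xp : ℕ)
    (hL : L = eL b 0 ⟨0, 0, 0, 0, 0, 0⟩) (hxp : xp = 25920 * b.H + L - sS) :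
    (xp = 0 → (sS : ℝ) * Psi 3 ((25920 * hU e Y - sS) / sS) ≤ 0) ∧
    (xp ≠ 0 → 1048576 * ((sS : ℝ) * Psi 3 ((25920 * hU e Y - sS) / sS)) ≤
      1048576 * (FF 3 (25920 * b.H - (sS + L)) : ℕ) +
        (slope (FF 3 xp) (FF 3 (25920 * b.H - (sS + L))) L : ℕ) *
          (L + ulg b 0 0 0 0 0 x0 x1 x2 x3 t)) := by
  obtain ⟨-, pm, pc, p0, pf⟩ := h3 3 (by norm_num) (by norm_num)
  have hS : (0 : ℝ) < (sS : ℕ) := by
    have : 0 < sS := by unfold sS; norm_num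
    exact_mod_cast this
  have hgl := ul_g hB 0 ⟨0, 0, 0, 0, 0, 0⟩
  rw [← hL] at hgl
  simp only [Nat.cast_zero] at hgl
  have hx : 25920 * hU e Y - sS ≤ 25920 * b.H - sS + ulg b 0 0 0 0 0 x0 x1 x2 x3 t := by
    rw [ul_hU hB]
    have : 0 ≤ x0 ^ 2 + x1 ^ 2 + x2 ^ 2 + x3 ^ 2 := by positivity
    unfold ulg
    linarith
  set G := ulg b 0 0 0 0 0 x0 x1 x2 x3 t with hG
  have hgl' := abs_le.1 hgl
  constructor
  · intro h0
    have hle : 25920 * b.H + L ≤ sS := by omega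
    have hler : (25920 : ℝ) * b.H + L ≤ (sS : ℕ) := by exact_mod_cast hle
    have hx0 : 25920 * hU e Y - sS ≤ 0 := by linarith
    have : Psi 3 ((25920 * hU e Y - sS) / sS) ≤ Psi 3 0 := by
      apply pm
      exact div_nonpos_of_nonpos_of_nonneg hx0 hS.le
    rw [p0] at this
    exact mul_nonpos_of_nonneg_of_nonpos hS.le this
  · intro h0
    have hlt : sS ≤ 25920 * b.H + L := by omega
    have hxpr : (xp : ℝ) = 25920 * b.H + L - (sS : ℕ) := by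
      rw [hxp, Nat.cast_sub hlt]; push_cast; ring
    set xm := 25920 * b.H - (sS + L) with hxm
    have hxmr : (25920 * b.H - (sS : ℕ) : ℝ) - L ≤ (xm : ℝ) := by
      rcases le_total (sS + L) (25920 * b.H) with h | h
      · rw [hxm, Nat.cast_sub h]; push_cast; linarith
      · have h' : (25920 : ℝ) * b.H ≤ (sS : ℕ) + L := by exact_mod_cast h
        have : (0 : ℝ) ≤ (xm : ℝ) := Nat.cast_nonneg _
        linarith
    have hch := ul_chord pm pc hS (xc := 25920 * b.H - (sS : ℕ))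
      (xl := 25920 * b.H - (sS : ℕ) + G) (L := L) (xp := xp) (xm := xm) (Fp := FF 3 xp)
      (Fm := FF 3 xm) (by rw [hxpr]; linarith) hxmr (by rw [add_sub_cancel_left]; exact hgl)
      (pf xp) (pf xm)
    have hmono : Psi 3 ((25920 * hU e Y - sS) / sS) ≤ Psi 3 ((25920 * b.H - (sS : ℕ) + G) / sS) := by
      apply pm
      exact div_le_div_of_nonneg_right (by linarith) hS.le
    have e1 := mul_le_mul_of_nonneg_left hmono hS.le
    have e2 : (25920 * b.H - (sS : ℕ) + G : ℝ) - (25920 * b.H - (sS : ℕ) - L) = L + G := by ring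
    rw [e2] at hch
    linarith

theorem ul_leaf (h1 : ST_PS1) (h2 : ST_PS2) (h3 : ST_PS3) {b : Bx} {e : Fin 4 → ℝ}
    {Y x0 x1 x2 x3 t : ℝ} (hB : ulB b e Y x0 x1 x2 x3 t) (l : List En) (hg : ∀ n ∈ l, GoodE n)
    (h : leafU b l = true) : 5 * (1048576 * ((sS : ℝ) * SU l e Y)) ≤ 130896 * hU e Y ^ 2 := by
  unfold leafU at h
  simp only [ul_force] at h
  obtain ⟨L, hL⟩ : ∃ L, L = eL b 0 ⟨0, 0, 0, 0, 0, 0⟩ := ⟨_, rfl⟩
  rw [← hL] at h
  obtain ⟨xp, hxp⟩ : ∃ xp, xp = 25920 * b.H + L - sS := ⟨_, rfl⟩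
  have hxp' : Nat.sub (Nat.add (Nat.mul 25920 b.H) L) sS = xp := hxp.symm
  rw [hxp'] at h
  obtain ⟨t0, t1⟩ := ul_inf h3 hB L xp hL hxp
  unfold SU
  rw [mul_add, mul_add, mul_add]
  by_cases hx0 : xp = 0
  · rw [hx0] at h
    have h' : accU b l 0 0 0 0 0 0 0 = true := h
    have := ul_acc h1 h2 h3 hB l hg _ _ _ _ _ _ _ h'
    have hz : ulC b 0 0 0 0 0 0 0 x0 x1 x2 x3 t = 0 := by
      unfold ulC; push_cast; ring
    rw [hz] at this
    have := t0 hx0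
    linarith
  · have hbeq : Nat.beq xp 0 = false := by
      cases xp with
      | zero => exact absurd rfl hx0
      | succ k => rfl
    rw [hbeq, cond_false] at h
    have ht := t1 hx0
    obtain ⟨Fm, hFm⟩ : ∃ Fm, Fm = FF 3 (25920 * b.H - (sS + L)) := ⟨_, rfl⟩
    have hFm' : FF 3 (Nat.sub (Nat.mul 25920 b.H) (Nat.add sS L)) = Fm := hFm.symm
    rw [hFm'] at h
    rw [← hFm] at ht
    obtain ⟨σ, hσ⟩ : ∃ σ, σ = slope (FF 3 xp) Fm L := ⟨_, rfl⟩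
    rw [← hσ] at h ht
    have hih := ul_acc h1 h2 h3 hB l hg _ _ _ _ _ _ _ h
    have hC : ulC b (Nat.add (Nat.mul 1048576 Fm) (Nat.mul σ L)) σ 0 0 0 0 0 x0 x1 x2 x3 t =
        1048576 * Fm + σ * (L + ulg b 0 0 0 0 0 x0 x1 x2 x3 t) := by
      unfold ulC ulg
      simp only [Nat.add_eq, Nat.mul_eq]
      push_cast
      ring
    rw [hC] at hih
    linarith

theorem st_UL (h1 : ST_PS1) (h2 : ST_PS2) (h3 : ST_PS3) : ST_UL := by
  intro L l0 h0 l1 h1' l2 h2' l3 h3' l h hg hl0 hl1 hl2 hl3 hl hw e Y hU'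
  unfold withB at hw
  simp only [ul_force] at hw
  by_cases hc : nsq (l0 + h0) (l1 + h1') (l2 + h2') (l3 + h3') 128 ≤ 4096 * (l + h)
  · have hble : Nat.ble (nsq (Nat.add l0 h0) (Nat.add l1 h1') (Nat.add l2 h2') (Nat.add l3 h3') 128)
        (Nat.mul 4096 (Nat.add l h)) = true := Nat.ble_eq_true_of_le hc
    rw [hble, cond_true] at hw
    obtain ⟨⟨a0, b0⟩, ⟨a1, b1⟩, ⟨a2, b2⟩, ⟨a3, b3⟩, ⟨a4, b4⟩⟩ := hU'
    have hr : ∀ p q : ℕ, p ≤ q → ∀ z : ℝ, (p : ℝ) ≤ z → z ≤ q →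
        |2 * z - ((Nat.add p q : ℕ) : ℝ)| ≤ ((Nat.sub q p : ℕ) : ℝ) := by
      intro p q hpq z hz1 hz2
      have e1 : ((Nat.sub q p : ℕ) : ℝ) = q - p := by
        show (((q - p : ℕ)) : ℝ) = _
        rw [Nat.cast_sub hpq]
      have e2 : ((Nat.add p q : ℕ) : ℝ) = p + q := by
        show (((p + q : ℕ)) : ℝ) = _
        push_cast; rfl
      rw [e1, e2, abs_le]
      constructor <;> linarith
    have hB : ulB ⟨Nat.add l0 h0, Nat.add l1 h1', Nat.add l2 h2', Nat.add l3 h3', Nat.add l h,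
        Nat.sub h0 l0, Nat.sub h1' l1, Nat.sub h2' l2, Nat.sub h3' l3, Nat.sub h l,
        Nat.sub (Nat.mul 4096 (Nat.add l h))
          (nsq (Nat.add l0 h0) (Nat.add l1 h1') (Nat.add l2 h2') (Nat.add l3 h3') 128)⟩ e Y
        (2 * e 0 - ((Nat.add l0 h0 : ℕ) : ℝ)) (2 * e 1 - ((Nat.add l1 h1' : ℕ) : ℝ))
        (2 * e 2 - ((Nat.add l2 h2' : ℕ) : ℝ)) (2 * e 3 - ((Nat.add l3 h3' : ℕ) : ℝ))
        (2 * Y - ((Nat.add l h : ℕ) : ℝ)) := by
      refine ⟨?_, by ring, by ring, by ring, by ring, by ring, hr _ _ hl0 _ a0 b0,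
        hr _ _ hl1 _ a1 b1, hr _ _ hl2 _ a2 b2, hr _ _ hl3 _ a3 b3, hr _ _ hl _ a4 b4⟩
      show ((4096 * (l + h) - nsq (l0 + h0) (l1 + h1') (l2 + h2') (l3 + h3') 128 : ℕ) : ℝ) = _
      rw [Nat.cast_sub hc, ul_nsq]
      simp only [Nat.add_eq]
      push_cast
      ring
    have key := ul_leaf h1 h2 h3 hB L hg hw
    have hsS : ((sS : ℕ) : ℝ) = 86973087744 := by
      unfold sS; norm_num
    rw [hsS] at key
    have e1 : (505 : ℝ) / 100 * (hU e Y / 2 ^ 22) ^ 2 =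
        130896 * hU e Y ^ 2 / (5 * (1048576 * 86973087744)) := by
      rw [div_pow]
      norm_num
      ring
    rw [e1, le_div_iff₀ (by norm_num)]
    linarith
  · exfalso
    have hble : Nat.ble (nsq (Nat.add l0 h0) (Nat.add l1 h1') (Nat.add l2 h2') (Nat.add l3 h3') 128)
        (Nat.mul 4096 (Nat.add l h)) = false := by
      rcases hb : Nat.ble (nsq (Nat.add l0 h0) (Nat.add l1 h1') (Nat.add l2 h2')
        (Nat.add l3 h3') 128) (Nat.mul 4096 (Nat.add l h)) with _ | _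
      · rfl
      · exact absurd (Nat.le_of_ble_eq_true hb) hc
    rw [hble, cond_false] at hw
    exact Bool.noConfusion hw

end Pool.Agent.Helper10.Qc
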